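import Pool.Agent.H727R4.CLT.Stmts

/-! Task Out of project H727-CLT (helper779), after `Helper553.Orth.Det`. -/

set_option autoImplicit false
open MeasureTheory ProbabilityTheory Filter Topology Set Polynomial
open scoped ENNReal NNReal
open Pool.Agent.Helper553.Orth

namespace Pool.Agent.H727R4.CLT.Out

variable {m : ℕ} {x : Fin m → ℝ} {d ℓ G A ε : ℝ} {s : ℕ} {Q R : ℝ[X]} {g g' : Fin m → ℝ}
  {ζ ζ1 ζ2 : ℝ → ℝ}

theorem eval_qq (a d t : ℝ) : (qq a d).eval t = (t - a) * (t - (a + d)) := by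
  unfold qq
  simp only [eval_mul, eval_sub, eval_X, eval_C]

theorem natDegree_qq (a d : ℝ) : (qq a d).natDegree ≤ 2 := by
  unfold qq
  apply natDegree_mul_le.trans
  have h1 : (X - C a : ℝ[X]).natDegree = 1 := natDegree_X_sub_C _
  have h2 : (X - (C (a + d)) : ℝ[X]).natDegree = 1 := natDegree_X_sub_C _
  rw [h1, h2]

theorem WW_eq (x : Fin m → ℝ) (d : ℝ) (k : Fin m) : WW x d = qq (x k) d * Wr x d k := by
  unfold WW Wr
  exact (Finset.mul_prod_erase Finset.univ (fun k : Fin m => qq (x k) d) (Finset.mem_univ k)).symm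

theorem natDegree_WW (x : Fin m → ℝ) (d : ℝ) : (WW x d).natDegree ≤ 2 * m := by
  unfold WW
  apply (natDegree_prod_le _ _).trans
  calc ∑ i : Fin m, (qq (x i) d).natDegree ≤ ∑ _i : Fin m, 2 :=
        Finset.sum_le_sum (fun i _ => natDegree_qq (x i) d)
    _ = 2 * m := by rw [Finset.sum_const, Finset.card_univ, Fintype.card_fin, smul_eq_mul]; ring

theorem natDegree_Wr (x : Fin m → ℝ) (d : ℝ) (k : Fin m) :
    (Wr x d k).natDegree ≤ 2 * (m - 1) := by
  unfold Wr
  apply (natDegree_prod_le _ _).trans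
  calc ∑ i ∈ Finset.univ.erase k, (qq (x i) d).natDegree ≤ ∑ _i ∈ Finset.univ.erase k, 2 :=
        Finset.sum_le_sum (fun i _ => natDegree_qq (x i) d)
    _ = 2 * (m - 1) := by
        rw [Finset.sum_const, Finset.card_erase_of_mem (Finset.mem_univ k), Finset.card_univ,
          Fintype.card_fin, smul_eq_mul]; ring

theorem natDegree_Zx (hm : 1 ≤ m) (hQ : Q.natDegree ≤ s) (hR : R.natDegree ≤ s) (τ : ℝ) :
    (Zx x d Q R g g' τ).natDegree ≤ s + 2 * m := by
  unfold Zx
  apply (natDegree_add_le _ _).trans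
  apply max_le
  · apply natDegree_mul_le.trans
    have h1 := natDegree_WW x d
    omega
  · apply (natDegree_C_mul_le _ _).trans
    apply natDegree_mul_le.trans
    have h3 : (∑ k : Fin m, Wr x d k *
        (C (g k) * (X - C (x k + d)) + C (g' k) * (X - C (x k)))).natDegree ≤ 2 * (m - 1) + 1 := by
      apply natDegree_sum_le_of_forall_le
      intro k _
      apply natDegree_mul_le.trans
      apply add_le_add (natDegree_Wr x d k)
      apply (natDegree_add_le _ _).trans
      apply max_le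
      · exact (natDegree_C_mul_le _ _).trans (natDegree_X_sub_C_le _)
      · exact (natDegree_C_mul_le _ _).trans (natDegree_X_sub_C_le _)
    omega

theorem far (h : HX m x d ℓ G A ε s Q R g g' ζ ζ1 ζ2) {t : ℝ}
    (ht : ∀ k, t ∉ Icc (x k - ℓ) (x k + ℓ)) (k : Fin m) :
    3 / 4 * ℓ ≤ |t - x k| ∧ 3 / 4 * ℓ ≤ |t - (x k + d)| := by
  have h1 := ht k
  have hl := h.hℓ
  have hd := h.hd
  have hd0 := h.hd0
  rw [mem_Icc, not_and_or, not_le, not_le] at h1
  rcases h1 with h1 | h1
  · constructor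
    · rw [le_abs]; right; linarith
    · rw [le_abs]; right; linarith
  · constructor
    · rw [le_abs]; left; linarith
    · rw [le_abs]; left; linarith

theorem sum_eq {t : ℝ} (h1 : ∀ l : Fin m, t - x l ≠ 0) (h2 : ∀ l : Fin m, t - (x l + d) ≠ 0) :
    (∑ k : Fin m, Wr x d k *
        (C (g k) * (X - C (x k + d)) + C (g' k) * (X - C (x k)))).eval t =
      (WW x d).eval t * ∑ l : Fin m, (g l / (t - x l) + g' l / (t - (x l + d))) := by
  rw [eval_finsetSum, Finset.mul_sum]
  apply Finset.sum_congr rfl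
  intro l _
  have hW := congrArg (fun p => eval t p) (WW_eq x d l)
  simp only [eval_mul, eval_qq] at hW
  rw [hW]
  simp only [eval_mul, eval_add, eval_sub, eval_X, eval_C]
  have a1 := h1 l
  have a2 := h2 l
  field_simp

theorem Zx_close (h : HX m x d ℓ G A ε s Q R g g' ζ ζ1 ζ2) {τ1 τ2 : ℝ} (hτ : |τ1 - τ2| ≤ d) {t : ℝ}
    (ht : ∀ k, t ∉ Icc (x k - ℓ) (x k + ℓ)) :
    |(Zx x d Q R g g' τ1).eval t - (Zx x d Q R g g' τ2).eval t| ≤
      (d * (m * (3 * G / ℓ))) * |(WW x d * Q).eval t| := by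
  have hl := h.hℓ
  have hG : 0 ≤ G := by linarith [h.hG]
  have hdist := far h ht
  have a1 : ∀ l : Fin m, t - x l ≠ 0 := by
    intro l h0
    have := (hdist l).1
    rw [h0, abs_zero] at this
    linarith
  have a2 : ∀ l : Fin m, t - (x l + d) ≠ 0 := by
    intro l h0
    have := (hdist l).2
    rw [h0, abs_zero] at this
    linarith
  have hsum : |∑ l : Fin m, (g l / (t - x l) + g' l / (t - (x l + d)))| ≤ m * (3 * G / ℓ) := by
    calc |∑ l : Fin m, (g l / (t - x l) + g' l / (t - (x l + d)))|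
        ≤ ∑ l : Fin m, |g l / (t - x l) + g' l / (t - (x l + d))| := Finset.abs_sum_le_sum_abs _ _
      _ ≤ ∑ _l : Fin m, 3 * G / ℓ := by
          apply Finset.sum_le_sum
          intro l _
          have h1 := (div_bd hG (h.hg l) (by positivity : 0 < 3 / 4 * ℓ) (hdist l).1).1
          have h2 := (div_bd hG (h.hg' l) (by positivity : 0 < 3 / 4 * ℓ) (hdist l).2).1
          refine (abs_add_le _ _).trans ((add_le_add h1 h2).trans ?_)
          have e : G / (3 / 4 * ℓ) + G / (3 / 4 * ℓ) = 8 / 3 * (G / ℓ) := by field_simp; ring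
          rw [e]
          have e2 : 3 * G / ℓ = 3 * (G / ℓ) := by ring
          rw [e2]
          have : 0 ≤ G / ℓ := by positivity
          linarith
      _ = m * (3 * G / ℓ) := by rw [Finset.sum_const, nsmul_eq_mul, Finset.card_univ, Fintype.card_fin]
  have e : (Zx x d Q R g g' τ1).eval t - (Zx x d Q R g g' τ2).eval t =
      (τ1 - τ2) * (∑ l : Fin m, (g l / (t - x l) + g' l / (t - (x l + d)))) * (WW x d * Q).eval t := by
    unfold Zx
    rw [eval_add, eval_add, eval_mul, eval_mul, eval_mul, eval_mul, eval_mul, sum_eq a1 a2, eval_C,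
      eval_C, eval_mul]
    ring
  rw [e, abs_mul, abs_mul]
  apply mul_le_mul_of_nonneg_right _ (abs_nonneg _)
  exact mul_le_mul hτ hsum (abs_nonneg _) h.hd0.le

theorem Wr_ne (h : HX m x d ℓ G A ε s Q R g g' ζ ζ1 ζ2) (k : Fin m) :
    (Wr x d k).eval (x k) ≠ 0 := by
  unfold Wr
  rw [eval_prod]
  apply Finset.prod_ne_zero_iff.2
  intro l hl
  have hlk : l ≠ k := (Finset.mem_erase.1 hl).1
  have h1 := h.hsep k l (Ne.symm hlk)
  have hl0 := h.hℓ
  have hd := h.hd
  have hd0 := h.hd0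
  rw [eval_qq]
  apply mul_ne_zero
  · intro h0
    rw [h0, abs_zero] at h1
    linarith
  · intro h0
    have e : x k - x l = d := by linarith
    rw [e, abs_of_pos hd0] at h1
    linarith

theorem num_ne' (h : HX m x d ℓ G A ε s Q R g g' ζ ζ1 ζ2) (k : Fin m) (hg : g k ≠ 0) {τ : ℝ}
    (hτ : τ ≠ 0) :
    derivative (Zx x d Q R g g' τ) * (WW x d * Q) -
      Zx x d Q R g g' τ * derivative (WW x d * Q) ≠ 0 := by
  intro h0
  have h1 := congrArg (fun p => eval (x k) p) h0
  have hWk := Wr_ne h k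
  have hl := h.hℓ
  have hQk : Q.eval (x k) ≠ 0 := h.hQ0 k (x k) ⟨by linarith, by linarith⟩
  have hqp : (qq (x k) d).eval (x k) = 0 := by rw [eval_qq]; simp
  have hWp0 : (WW x d).eval (x k) = 0 := by
    rw [WW_eq x d k, eval_mul, hqp, zero_mul]
  have hqp' : (derivative (qq (x k) d)).eval (x k) = -d := by
    unfold qq
    simp only [derivative_mul, derivative_sub, derivative_X, derivative_C, sub_zero, one_mul,
      eval_add, eval_mul, eval_sub, eval_X, eval_C, sub_self, zero_mul, add_zero]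
    simp
  have hY' : (derivative (WW x d * Q)).eval (x k) =
      -d * (Wr x d k).eval (x k) * Q.eval (x k) := by
    rw [derivative_mul, eval_add, eval_mul, eval_mul, hWp0, zero_mul, add_zero,
      WW_eq x d k, derivative_mul, eval_add, eval_mul, eval_mul, hqp', hqp]
    ring
  have hZ : (Zx x d Q R g g' τ).eval (x k) =
      τ * (Q.eval (x k) * ((Wr x d k).eval (x k) * (g k * (-d)))) := by
    unfold Zx
    rw [eval_add, eval_mul, hWp0, zero_mul, zero_add, eval_mul, eval_C, eval_mul, eval_finsetSum]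
    rw [Finset.sum_eq_single k]
    · simp only [eval_mul, eval_add, eval_sub, eval_X, eval_C]
      ring
    · intro l _ hlk
      have : (Wr x d l).eval (x k) = 0 := by
        unfold Wr
        rw [eval_prod]
        exact Finset.prod_eq_zero (Finset.mem_erase.mpr ⟨Ne.symm hlk, Finset.mem_univ _⟩) hqp
      rw [eval_mul, this, zero_mul]
    · intro h; exact absurd (Finset.mem_univ _) h
  simp only [eval_sub, eval_mul, eval_zero] at h1
  rw [hY', hZ, hWp0] at h1
  have hd0 := h.hd0.ne'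
  have : τ * (Q.eval (x k) * ((Wr x d k).eval (x k) * (g k * (-d)))) *
      (-d * (Wr x d k).eval (x k) * Q.eval (x k)) ≠ 0 := by
    have h3 : -d ≠ 0 := neg_ne_zero.mpr hd0
    exact mul_ne_zero (mul_ne_zero hτ (mul_ne_zero hQk (mul_ne_zero hWk (mul_ne_zero hg h3))))
      (mul_ne_zero (mul_ne_zero h3 hWk) hQk)
  apply this
  linarith

end Pool.Agent.H727R4.CLT.Out

namespace Pool.Agent.H727R4.CLT

open Out

theorem taskOut (hB : TaskBand) : TaskOut := by
  classical
  intro m x d ℓ G A ε s Q R g g' ζ ζ1 ζ2 h k0 hg0 τ1 τ2 hτ1 hτ1d hτ2 hτ2d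
  have hG := h.hG
  have hl := h.hℓ
  have hd0 := h.hd0
  have hδ0 : 0 ≤ d * (m * (3 * G / ℓ)) := by positivity
  have hY : WW x d * Q ≠ 0 := by
    intro h0
    have hn := num_ne' h k0 hg0 hτ1.ne'
    rw [h0] at hn
    simp at hn
  have hYd : (WW x d * Q).natDegree ≤ s + 2 * m := by
    apply natDegree_mul_le.trans
    have := natDegree_WW x d
    have := h.hQ
    omega
  have hab1 : |τ1 - τ2| ≤ d := by
    rw [abs_le]
    constructor <;> linarith
  have hab2 : |τ2 - τ1| ≤ d := by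
    rw [abs_sub_comm]
    exact hab1
  obtain ⟨F1, hF1, hF1'⟩ := hB m (s + 2 * m) x ℓ (d * (m * (3 * G / ℓ))) (WW x d * Q)
    (Zx x d Q R g g' τ1) (Zx x d Q R g g' τ2) hl hδ0 (fun t ht => Zx_close h hab1 ht) hY hYd
    (natDegree_Zx h.hm h.hQ h.hR τ1) (num_ne' h k0 hg0 hτ1.ne') (num_ne' h k0 hg0 hτ2.ne')
  obtain ⟨F2, hF2, hF2'⟩ := hB m (s + 2 * m) x ℓ (d * (m * (3 * G / ℓ))) (WW x d * Q)
    (Zx x d Q R g g' τ2) (Zx x d Q R g g' τ1) hl hδ0 (fun t ht => Zx_close h hab2 ht) hY hYd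
    (natDegree_Zx h.hm h.hQ h.hR τ2) (num_ne' h k0 hg0 hτ2.ne') (num_ne' h k0 hg0 hτ1.ne')
  refine ⟨F1 ∪ F2, (Finset.card_union_le _ _).trans (by omega), ?_⟩
  intro b hb
  apply le_antisymm
  · exact hF1' b (fun f hf => hb f (Finset.mem_union_left _ hf))
  · exact hF2' b (fun f hf => hb f (Finset.mem_union_right _ hf))

end Pool.Agent.H727R4.CLT
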